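import Pool.Agent.Helper46.T6.Stmts

/-!
# The orthonormal basis at the peak (T6, `MP_2f9829_co`)
-/

set_option autoImplicit false
set_option maxHeartbeats 1000000

namespace T6H72

open Finset Pool.Agent.Helper15.T6 Pool.Agent.Helper46.T6
open Pool.Agent.Helper15.T4 (nsq)

lemma sum_pi {K : ℕ} {α : Type} [Fintype α] [DecidableEq α] (F : Fin K → α → ℝ) :
    ∑ c : Fin K → α, ∏ p, F p (c p) = ∏ p, ∑ u, F p u := by
  rw [Finset.prod_univ_sum, Fintype.piFinset_univ]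

/-- sums over the replicas `Fin K × Fin 2` -/
lemma sum_rep {K : ℕ} {α : Type} [Fintype α] [DecidableEq α] (G : Fin K → α → α → ℝ) :
    ∑ a : Fin K × Fin 2 → α, ∏ p, G p (a (p, 0)) (a (p, 1))
      = ∏ p, ∑ x : α, ∑ y : α, G p x y := by
  have e1 : ∑ a : Fin K × Fin 2 → α, ∏ p, G p (a (p, 0)) (a (p, 1))
      = ∑ a : Fin K → Fin 2 → α, ∏ p, G p (a p 0) (a p 1) := by
    refine Fintype.sum_equiv (Equiv.curry (Fin K) (Fin 2) α) _ _ ?_
    intro a
    rfl
  rw [e1, sum_pi (fun p (s : Fin 2 → α) => G p (s 0) (s 1))]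
  refine Finset.prod_congr rfl fun p _ => ?_
  have e2 : ∑ s : Fin 2 → α, G p (s 0) (s 1) = ∑ z : α × α, G p z.1 z.2 :=
    Fintype.sum_equiv (finTwoArrowEquiv α) _ _ (fun s => rfl)
  rw [e2, Fintype.sum_prod_type]

/-- the product over the replicas -/
lemma prod_rep {K : ℕ} (f : Fin K × Fin 2 → ℝ) : ∏ j, f j = ∏ p, (f (p, 0) * f (p, 1)) := by
  rw [Fintype.prod_prod_type]
  simp [Fin.prod_univ_two]

/-- scalar product of matrices -/
def mip {d : ℕ} (X Y : Md d) : ℝ := ∑ i : Fin d, ∑ j : Fin d, X i j * Y i j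

lemma mip_comm {d : ℕ} (X Y : Md d) : mip X Y = mip Y X := by
  unfold mip
  exact Finset.sum_congr rfl fun i _ => Finset.sum_congr rfl fun j _ => mul_comm _ _

lemma mip_smul_left {d : ℕ} (c : ℝ) (X Y : Md d) : mip (c • X) Y = c * mip X Y := by
  simp only [mip, Matrix.smul_apply, smul_eq_mul, Finset.mul_sum]
  exact Finset.sum_congr rfl fun i _ => Finset.sum_congr rfl fun j _ => by ring

lemma mip_smul_right {d : ℕ} (c : ℝ) (X Y : Md d) : mip X (c • Y) = c * mip X Y := by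
  rw [mip_comm, mip_smul_left, mip_comm]

lemma mip_add_left {d : ℕ} (X X' Y : Md d) : mip (X + X') Y = mip X Y + mip X' Y := by
  simp only [mip, Matrix.add_apply, add_mul, Finset.sum_add_distrib]

lemma mip_sub_left {d : ℕ} (X X' Y : Md d) : mip (X - X') Y = mip X Y - mip X' Y := by
  simp only [mip, Matrix.sub_apply, sub_mul, Finset.sum_sub_distrib]

lemma mip_single {d : ℕ} (a b : Fin d) (Y : Md d) : mip (Matrix.single a b (1 : ℝ)) Y = Y a b := by
  simp only [mip, Matrix.single_apply]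
  rw [Finset.sum_eq_single a, Finset.sum_eq_single b]
  · simp
  · intro j _ hj; simp [Ne.symm hj]
  · intro h; exact absurd (Finset.mem_univ _) h
  · intro i _ hi
    exact Finset.sum_eq_zero fun j _ => by simp [Ne.symm hi]
  · intro h; exact absurd (Finset.mem_univ _) h

lemma mip_diagonal {d : ℕ} (v : Fin d → ℝ) (Y : Md d) :
    mip (Matrix.diagonal v) Y = ∑ i, v i * Y i i := by
  simp only [mip, Matrix.diagonal_apply]
  refine Finset.sum_congr rfl fun i _ => ?_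
  rw [Finset.sum_eq_single i]
  · simp
  · intro j _ hj; simp [Ne.symm hj]
  · intro h; exact absurd (Finset.mem_univ _) h

/-- the diagonal vectors -/
noncomputable def dv {d : ℕ} (k : ℕ) (i : Fin d) : ℝ :=
  if (i : ℕ) ≤ k then (1 : ℝ) else if (i : ℕ) = k + 1 then -((k : ℝ) + 1) else 0

lemma fin_sum_dv {d : ℕ} (k : ℕ) (hk : k + 1 < d) (g : ℕ → ℝ) :
    ∑ i : Fin d, dv k i * g i = (∑ i ∈ range (k + 1), g i) - ((k : ℝ) + 1) * g (k + 1) := by
  have h1 : ∑ i : Fin d, dv k i * g i = ∑ i ∈ range d, (if i ≤ k then (1 : ℝ) else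
      if i = k + 1 then -((k : ℝ) + 1) else 0) * g i := by
    rw [Finset.sum_range]
    rfl
  have h2 : range (k + 2) ⊆ range d := Finset.range_subset_range.mpr hk
  rw [h1, ← Finset.sum_subset h2]
  · rw [Finset.sum_range_succ]
    congr 1
    · refine Finset.sum_congr rfl fun i hi => ?_
      rw [Finset.mem_range] at hi
      rw [if_pos (by omega), one_mul]
    · rw [if_neg (by omega), if_pos rfl]; ring
  · intro i _ hi
    rw [Finset.mem_range] at hi
    rw [if_neg (by omega), if_neg (by omega), zero_mul]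

lemma sum_dv {d : ℕ} (k : ℕ) (hk : k + 1 < d) : ∑ i : Fin d, dv k i = 0 := by
  have := fin_sum_dv k hk (fun _ => 1)
  simp only [mul_one, Finset.sum_const, Finset.card_range, nsmul_eq_mul] at this
  rw [this]; push_cast; ring

lemma sum_dv_lt {d : ℕ} (k l : ℕ) (hk : k + 1 < d) (hkl : k < l) :
    ∑ i : Fin d, dv k i * dv l i = 0 := by
  have := fin_sum_dv (d := d) k hk (fun i => if i ≤ l then (1 : ℝ) else
    if i = l + 1 then -((l : ℝ) + 1) else 0)
  have e : ∑ i : Fin d, dv k i * dv l i = ∑ i : Fin d, dv k i * (fun i : ℕ => if i ≤ l then (1 : ℝ) else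
    if i = l + 1 then -((l : ℝ) + 1) else 0) i := rfl
  rw [e, this]
  have h1 : ∑ i ∈ range (k + 1), (if i ≤ l then (1 : ℝ) else
      if i = l + 1 then -((l : ℝ) + 1) else 0) = (k : ℝ) + 1 := by
    rw [Finset.sum_congr rfl (g := fun _ => (1 : ℝ))]
    · simp
    · intro i hi
      rw [Finset.mem_range] at hi
      rw [if_pos (by omega)]
  rw [h1, if_pos (by omega)]; ring

lemma sum_dv_self {d : ℕ} (k : ℕ) (hk : k + 1 < d) :
    ∑ i : Fin d, dv k i * dv k i = ((k : ℝ) + 1) * ((k : ℝ) + 2) := by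
  have := fin_sum_dv (d := d) k hk (fun i => if i ≤ k then (1 : ℝ) else
    if i = k + 1 then -((k : ℝ) + 1) else 0)
  have e : ∑ i : Fin d, dv k i * dv k i = ∑ i : Fin d, dv k i * (fun i : ℕ => if i ≤ k then (1 : ℝ) else
    if i = k + 1 then -((k : ℝ) + 1) else 0) i := rfl
  rw [e, this]
  have h1 : ∑ i ∈ range (k + 1), (if i ≤ k then (1 : ℝ) else
      if i = k + 1 then -((k : ℝ) + 1) else 0) = (k : ℝ) + 1 := by
    rw [Finset.sum_congr rfl (g := fun _ => (1 : ℝ))]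
    · simp
    · intro i hi
      rw [Finset.mem_range] at hi
      rw [if_pos (by omega)]
  rw [h1, if_neg (by omega), if_pos rfl]; ring

lemma Ed_unit {d : ℕ} (u : Unit) : (Ed (Sum.inl u) : Md d) = (Real.sqrt d)⁻¹ • (1 : Md d) := rfl

lemma Ed_A {d : ℕ} (p : {p : Fin d × Fin d // p.1 < p.2}) :
    (Ed (Sum.inr (Sum.inl p)) : Md d) = (Real.sqrt 2)⁻¹ •
      (Matrix.single p.1.1 p.1.2 (1 : ℝ) - Matrix.single p.1.2 p.1.1 (1 : ℝ)) := rfl

lemma Ed_S {d : ℕ} (p : {p : Fin d × Fin d // p.1 < p.2}) :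
    (Ed (Sum.inr (Sum.inr (Sum.inl p))) : Md d) = (Real.sqrt 2)⁻¹ •
      (Matrix.single p.1.1 p.1.2 (1 : ℝ) + Matrix.single p.1.2 p.1.1 (1 : ℝ)) := rfl

lemma Ed_D {d : ℕ} (k : Fin (d - 1)) :
    (Ed (Sum.inr (Sum.inr (Sum.inr k))) : Md d)
      = (Real.sqrt (((k : ℕ) + 1) * ((k : ℕ) + 2)))⁻¹ • Matrix.diagonal (dv (k : ℕ)) := rfl

lemma i2 : (Real.sqrt 2)⁻¹ * (Real.sqrt 2)⁻¹ = 1 / 2 := by
  rw [← mul_inv, Real.mul_self_sqrt (by norm_num)]; norm_num

lemma mip_A {d : ℕ} (p : {p : Fin d × Fin d // p.1 < p.2}) (Y : Md d) :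
    mip (Ed (Sum.inr (Sum.inl p))) Y = (Real.sqrt 2)⁻¹ * (Y p.1.1 p.1.2 - Y p.1.2 p.1.1) := by
  rw [Ed_A, mip_smul_left, mip_sub_left, mip_single, mip_single]

lemma mip_S {d : ℕ} (p : {p : Fin d × Fin d // p.1 < p.2}) (Y : Md d) :
    mip (Ed (Sum.inr (Sum.inr (Sum.inl p)))) Y
      = (Real.sqrt 2)⁻¹ * (Y p.1.1 p.1.2 + Y p.1.2 p.1.1) := by
  rw [Ed_S, mip_smul_left, mip_add_left, mip_single, mip_single]

lemma mip_D {d : ℕ} (k : Fin (d - 1)) (Y : Md d) :
    mip (Ed (Sum.inr (Sum.inr (Sum.inr k)))) Y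
      = (Real.sqrt (((k : ℕ) + 1) * ((k : ℕ) + 2)))⁻¹ * ∑ i, dv (k : ℕ) i * Y i i := by
  rw [Ed_D, mip_smul_left, mip_diagonal]

lemma mip_U {d : ℕ} (u : Unit) (Y : Md d) :
    mip (Ed (Sum.inl u)) Y = (Real.sqrt d)⁻¹ * ∑ i, Y i i := by
  rw [Ed_unit, mip_smul_left, ← Matrix.diagonal_one, mip_diagonal]
  simp

lemma A_entry {d : ℕ} (p : {p : Fin d × Fin d // p.1 < p.2}) (i j : Fin d) :
    (Ed (Sum.inr (Sum.inl p)) : Md d) i j = (Real.sqrt 2)⁻¹ *
      ((if p.1.1 = i ∧ p.1.2 = j then 1 else 0) - (if p.1.2 = i ∧ p.1.1 = j then 1 else 0)) := by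
  rw [Ed_A, Matrix.smul_apply, Matrix.sub_apply, Matrix.single_apply, Matrix.single_apply,
    smul_eq_mul]

lemma S_entry {d : ℕ} (p : {p : Fin d × Fin d // p.1 < p.2}) (i j : Fin d) :
    (Ed (Sum.inr (Sum.inr (Sum.inl p))) : Md d) i j = (Real.sqrt 2)⁻¹ *
      ((if p.1.1 = i ∧ p.1.2 = j then 1 else 0) + (if p.1.2 = i ∧ p.1.1 = j then 1 else 0)) := by
  rw [Ed_S, Matrix.smul_apply, Matrix.add_apply, Matrix.single_apply, Matrix.single_apply,
    smul_eq_mul]

lemma A_diag {d : ℕ} (p : {p : Fin d × Fin d // p.1 < p.2}) (i : Fin d) :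
    (Ed (Sum.inr (Sum.inl p)) : Md d) i i = 0 := by
  have hp := p.2
  rw [A_entry, if_neg, if_neg]
  · ring
  · rintro ⟨h1, h2⟩; rw [h1, h2] at hp; exact lt_irrefl _ hp
  · rintro ⟨h1, h2⟩; rw [h1, h2] at hp; exact lt_irrefl _ hp

lemma S_diag {d : ℕ} (p : {p : Fin d × Fin d // p.1 < p.2}) (i : Fin d) :
    (Ed (Sum.inr (Sum.inr (Sum.inl p))) : Md d) i i = 0 := by
  have hp := p.2
  rw [S_entry, if_neg, if_neg]
  · ring
  · rintro ⟨h1, h2⟩; rw [h1, h2] at hp; exact lt_irrefl _ hp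
  · rintro ⟨h1, h2⟩; rw [h1, h2] at hp; exact lt_irrefl _ hp

lemma D_entry {d : ℕ} (k : Fin (d - 1)) (i j : Fin d) :
    (Ed (Sum.inr (Sum.inr (Sum.inr k))) : Md d) i j =
      (Real.sqrt (((k : ℕ) + 1) * ((k : ℕ) + 2)))⁻¹ * (if i = j then dv (k : ℕ) i else 0) := by
  rw [Ed_D, Matrix.smul_apply, Matrix.diagonal_apply, smul_eq_mul]

lemma U_entry {d : ℕ} (u : Unit) (i j : Fin d) :
    (Ed (Sum.inl u) : Md d) i j = (Real.sqrt d)⁻¹ * (if i = j then 1 else 0) := by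
  rw [Ed_unit, Matrix.smul_apply, Matrix.one_apply, smul_eq_mul]

lemma D_off {d : ℕ} (k : Fin (d - 1)) {i j : Fin d} (h : i ≠ j) :
    (Ed (Sum.inr (Sum.inr (Sum.inr k))) : Md d) i j = 0 := by
  rw [D_entry, if_neg h, mul_zero]

lemma U_off {d : ℕ} (u : Unit) {i j : Fin d} (h : i ≠ j) :
    (Ed (Sum.inl u) : Md d) i j = 0 := by
  rw [U_entry, if_neg h, mul_zero]

lemma sq_inv (k : ℕ) : (Real.sqrt (((k : ℝ) + 1) * ((k : ℝ) + 2)))⁻¹ *
    (Real.sqrt (((k : ℝ) + 1) * ((k : ℝ) + 2)))⁻¹ * (((k : ℝ) + 1) * ((k : ℝ) + 2)) = 1 := by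
  have h : (0 : ℝ) < ((k : ℝ) + 1) * ((k : ℝ) + 2) := by positivity
  rw [← mul_inv, Real.mul_self_sqrt h.le, inv_mul_cancel₀ h.ne']

lemma AA {d : ℕ} (p q : {p : Fin d × Fin d // p.1 < p.2}) :
    mip (Ed (Sum.inr (Sum.inl p)) : Md d) (Ed (Sum.inr (Sum.inl q))) = if p = q then 1 else 0 := by
  rw [mip_A, A_entry, A_entry]
  have hp := p.2
  have hq := q.2
  have h1 : ¬ (q.1.2 = p.1.1 ∧ q.1.1 = p.1.2) := by
    rintro ⟨h1, h2⟩; rw [h1, h2] at hq; exact lt_asymm hp hq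
  have h2 : ¬ (q.1.1 = p.1.2 ∧ q.1.2 = p.1.1) := by
    rintro ⟨h1, h2⟩; rw [h1, h2] at hq; exact lt_asymm hp hq
  rw [if_neg h1, if_neg h2]
  by_cases h : p = q
  · subst h
    rw [if_pos rfl, if_pos ⟨rfl, rfl⟩, if_pos ⟨rfl, rfl⟩]
    linear_combination 2 * i2
  · have h3 : ¬ (q.1.1 = p.1.1 ∧ q.1.2 = p.1.2) := by
      rintro ⟨h1, h2⟩; exact h (Subtype.ext (Prod.ext h1.symm h2.symm))
    have h4 : ¬ (q.1.2 = p.1.2 ∧ q.1.1 = p.1.1) := fun h' => h3 ⟨h'.2, h'.1⟩
    rw [if_neg h, if_neg h3, if_neg h4]; ring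

lemma SS {d : ℕ} (p q : {p : Fin d × Fin d // p.1 < p.2}) :
    mip (Ed (Sum.inr (Sum.inr (Sum.inl p))) : Md d) (Ed (Sum.inr (Sum.inr (Sum.inl q))))
      = if p = q then 1 else 0 := by
  rw [mip_S, S_entry, S_entry]
  have hp := p.2
  have hq := q.2
  have h1 : ¬ (q.1.2 = p.1.1 ∧ q.1.1 = p.1.2) := by
    rintro ⟨h1, h2⟩; rw [h1, h2] at hq; exact lt_asymm hp hq
  have h2 : ¬ (q.1.1 = p.1.2 ∧ q.1.2 = p.1.1) := by
    rintro ⟨h1, h2⟩; rw [h1, h2] at hq; exact lt_asymm hp hq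
  rw [if_neg h1, if_neg h2]
  by_cases h : p = q
  · subst h
    rw [if_pos rfl, if_pos ⟨rfl, rfl⟩, if_pos ⟨rfl, rfl⟩]
    linear_combination 2 * i2
  · have h3 : ¬ (q.1.1 = p.1.1 ∧ q.1.2 = p.1.2) := by
      rintro ⟨h1, h2⟩; exact h (Subtype.ext (Prod.ext h1.symm h2.symm))
    have h4 : ¬ (q.1.2 = p.1.2 ∧ q.1.1 = p.1.1) := fun h' => h3 ⟨h'.2, h'.1⟩
    rw [if_neg h, if_neg h3, if_neg h4]; ring

lemma AS {d : ℕ} (p q : {p : Fin d × Fin d // p.1 < p.2}) :
    mip (Ed (Sum.inr (Sum.inl p)) : Md d) (Ed (Sum.inr (Sum.inr (Sum.inl q)))) = 0 := by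
  rw [mip_A, S_entry, S_entry]
  have e1 : (if q.1.1 = p.1.2 ∧ q.1.2 = p.1.1 then (1 : ℝ) else 0)
      = if q.1.2 = p.1.1 ∧ q.1.1 = p.1.2 then 1 else 0 := if_congr and_comm rfl rfl
  have e2 : (if q.1.2 = p.1.2 ∧ q.1.1 = p.1.1 then (1 : ℝ) else 0)
      = if q.1.1 = p.1.1 ∧ q.1.2 = p.1.2 then 1 else 0 := if_congr and_comm rfl rfl
  rw [e1, e2]; ring

lemma DD {d : ℕ} (k l : Fin (d - 1)) :
    mip (Ed (Sum.inr (Sum.inr (Sum.inr k))) : Md d) (Ed (Sum.inr (Sum.inr (Sum.inr l))))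
      = if k = l then 1 else 0 := by
  rw [mip_D]
  have hk : (k : ℕ) + 1 < d := by have := k.2; omega
  have hl : (l : ℕ) + 1 < d := by have := l.2; omega
  have e : ∑ i : Fin d, dv (k : ℕ) i * (Ed (Sum.inr (Sum.inr (Sum.inr l))) : Md d) i i
      = (Real.sqrt (((l : ℕ) + 1) * ((l : ℕ) + 2)))⁻¹ * ∑ i : Fin d, dv (k : ℕ) i * dv (l : ℕ) i := by
    rw [Finset.mul_sum]
    refine Finset.sum_congr rfl fun i _ => ?_
    rw [D_entry, if_pos rfl]; ring
  rw [e]
  by_cases h : k = l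
  · subst h
    rw [if_pos rfl, sum_dv_self _ hk]
    linear_combination sq_inv (k : ℕ)
  · rw [if_neg h]
    rcases lt_or_gt_of_ne (fun h' => h (Fin.ext h') : (k : ℕ) ≠ l) with h' | h'
    · rw [sum_dv_lt _ _ hk h']; ring
    · have : ∑ i : Fin d, dv (k : ℕ) i * dv (l : ℕ) i = 0 := by
        rw [← sum_dv_lt (d := d) _ _ hl h']
        exact Finset.sum_congr rfl fun i _ => mul_comm _ _
      rw [this]; ring

/-- the basis is orthonormal -/
lemma Ed_ip {d : ℕ} (hd : 1 ≤ d) (k l : BB d) : mip (Ed k) (Ed l) = if k = l then 1 else 0 := by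
  have hd0 : (0 : ℝ) < d := by exact_mod_cast hd
  rcases k with u | p | p | k <;> rcases l with u' | p' | p' | l'
  · rw [mip_U]
    simp only [U_entry, if_true, mul_one, Finset.sum_const, Finset.card_univ, Fintype.card_fin,
      nsmul_eq_mul]
    have : (Real.sqrt d)⁻¹ * (Real.sqrt d)⁻¹ = (d : ℝ)⁻¹ := by
      rw [← mul_inv, Real.mul_self_sqrt hd0.le]
    calc (Real.sqrt d)⁻¹ * ((d : ℝ) * (Real.sqrt d)⁻¹)
        = d * ((Real.sqrt d)⁻¹ * (Real.sqrt d)⁻¹) := by ring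
      _ = 1 := by rw [this, mul_inv_cancel₀ hd0.ne']
  · rw [mip_U]; simp [A_diag]
  · rw [mip_U]; simp [S_diag]
  · rw [mip_comm, mip_D]
    have hl : (l' : ℕ) + 1 < d := by have := l'.2; omega
    have e : ∑ i : Fin d, dv (l' : ℕ) i * (Ed (Sum.inl u) : Md d) i i
        = (Real.sqrt d)⁻¹ * ∑ i : Fin d, dv (l' : ℕ) i := by
      rw [Finset.mul_sum]
      refine Finset.sum_congr rfl fun i _ => ?_
      rw [U_entry, if_pos rfl]; ring
    rw [e, sum_dv _ hl]; simp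
  · rw [mip_comm, mip_U]; simp [A_diag]
  · rw [AA]; simp [Sum.inr.injEq, Sum.inl.injEq]
  · rw [AS]; simp
  · rw [mip_comm, mip_D]; simp [A_diag]
  · rw [mip_comm, mip_U]; simp [S_diag]
  · rw [mip_comm, AS]; simp
  · rw [SS]; simp
  · rw [mip_comm, mip_D]; simp [S_diag]
  · rw [mip_D]
    have hl : (k : ℕ) + 1 < d := by have := k.2; omega
    have e : ∑ i : Fin d, dv (k : ℕ) i * (Ed (Sum.inl u') : Md d) i i
        = (Real.sqrt d)⁻¹ * ∑ i : Fin d, dv (k : ℕ) i := by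
      rw [Finset.mul_sum]
      refine Finset.sum_congr rfl fun i _ => ?_
      rw [U_entry, if_pos rfl]; ring
    rw [e, sum_dv _ hl]; simp
  · rw [mip_D]; simp [A_diag]
  · rw [mip_D]; simp [S_diag]
  · rw [DD]; simp

lemma card_lt (d : ℕ) : 2 * Fintype.card {p : Fin d × Fin d // p.1 < p.2} + d = d ^ 2 := by
  classical
  have h1 : Fintype.card {p : Fin d × Fin d // p.1 < p.2}
      = (Finset.univ.filter (fun p : Fin d × Fin d => p.1 < p.2)).card := by
    rw [Fintype.card_subtype]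
  have h2 : (Finset.univ.filter (fun p : Fin d × Fin d => p.2 < p.1)).card
      = (Finset.univ.filter (fun p : Fin d × Fin d => p.1 < p.2)).card := by
    refine Finset.card_bij (fun p _ => p.swap) ?_ ?_ ?_
    · intro p hp; simpa using hp
    · intro p _ q _ h; exact Prod.swap_injective h
    · intro p hp; exact ⟨p.swap, by simpa using hp, by simp⟩
  have h3 : (Finset.univ.filter (fun p : Fin d × Fin d => p.1 = p.2)).card = d := by
    have : Finset.univ.filter (fun p : Fin d × Fin d => p.1 = p.2)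
        = Finset.univ.image (fun i : Fin d => (i, i)) := by
      ext ⟨i, j⟩
      simp only [Finset.mem_filter, Finset.mem_univ, true_and, Finset.mem_image]
      constructor
      · intro h; exact ⟨i, by rw [Prod.mk.injEq]; exact ⟨rfl, h⟩⟩
      · rintro ⟨k, hk⟩
        rw [Prod.mk.injEq] at hk
        exact hk.1.symm.trans hk.2
    rw [this, Finset.card_image_of_injective _ (fun i j h => (Prod.mk.inj h).1), Finset.card_univ,
      Fintype.card_fin]
  have h4 : (Finset.univ : Finset (Fin d × Fin d)).card = d ^ 2 := by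
    rw [Finset.card_univ, Fintype.card_prod, Fintype.card_fin]; ring
  have h5 := Finset.card_filter_add_card_filter_not (s := (Finset.univ : Finset (Fin d × Fin d)))
    (fun p => p.1 < p.2)
  have h6 := Finset.card_filter_add_card_filter_not
    (s := Finset.univ.filter (fun p : Fin d × Fin d => ¬ p.1 < p.2)) (fun p => p.2 < p.1)
  have h7 : (Finset.univ.filter (fun p : Fin d × Fin d => ¬ p.1 < p.2)).filter (fun p => p.2 < p.1)
      = Finset.univ.filter (fun p : Fin d × Fin d => p.2 < p.1) := by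
    ext p
    simp only [Finset.mem_filter, Finset.mem_univ, true_and]
    constructor
    · exact fun h => h.2
    · exact fun h => ⟨not_lt.mpr h.le, h⟩
  have h8 : (Finset.univ.filter (fun p : Fin d × Fin d => ¬ p.1 < p.2)).filter (fun p => ¬ p.2 < p.1)
      = Finset.univ.filter (fun p : Fin d × Fin d => p.1 = p.2) := by
    ext p
    simp only [Finset.mem_filter, Finset.mem_univ, true_and]
    constructor
    · rintro ⟨h1, h2⟩; exact le_antisymm (not_lt.mp h2) (not_lt.mp h1)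
    · intro h; rw [h]; simp
  rw [h7, h8] at h6
  rw [h4] at h5
  rw [h1]
  omega

lemma card_BB (d : ℕ) (hd : 1 ≤ d) : Fintype.card (BB d) = d ^ 2 := by
  have := card_lt d
  simp only [BB, Fintype.card_sum, Fintype.card_unit, Fintype.card_fin]
  omega

/-- The basis `ebd` is orthonormal. -/
theorem ip_ebd {d K : ℕ} (hd : 1 ≤ d) (b b' : Fin K → BB d) :
    ip (ebd b) (ebd b') = if b = b' then 1 else 0 := by
  have e : ip (ebd b) (ebd b') = ∑ a : Fin K × Fin 2 → Fin d,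
      ∏ p, (Ed (b p) (a (p, 0)) (a (p, 1)) * Ed (b' p) (a (p, 0)) (a (p, 1))) := by
    unfold ip ebd
    refine Finset.sum_congr rfl fun a _ => ?_
    rw [Finset.prod_mul_distrib]
  rw [e, sum_rep (fun p x y => Ed (b p) x y * Ed (b' p) x y)]
  have e2 : ∀ p, ∑ x : Fin d, ∑ y : Fin d, Ed (b p) x y * Ed (b' p) x y
      = if b p = b' p then 1 else 0 := fun p => Ed_ip hd _ _
  simp only [e2]
  split_ifs with h
  · subst h; simp
  · obtain ⟨p, hp⟩ := Function.ne_iff.mp h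
    exact Finset.prod_eq_zero (Finset.mem_univ p) (by simp [hp])

/-- Completeness of an orthonormal family of full size. -/
theorem complete {ι κ : Type} [Fintype ι] [Fintype κ] [DecidableEq ι] [DecidableEq κ]
    (hc : Fintype.card κ = Fintype.card ι) (e : κ → ι → ℝ)
    (he : ∀ k l, ip (e k) (e l) = if k = l then 1 else 0) (a a' : ι) :
    ∑ k, e k a * e k a' = if a = a' then 1 else 0 := by
  let E : Matrix κ ι ℝ := Matrix.of fun k a => e k a
  have h1 : E * E.transpose = 1 := by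
    ext b b'
    rw [Matrix.mul_apply, Matrix.one_apply]
    exact he b b'
  have h2 : E.transpose * E = 1 :=
    (Matrix.mul_eq_one_comm_of_equiv (Fintype.equivOfCardEq hc)).mp h1
  have := congrFun (congrFun h2 a) a'
  rw [Matrix.mul_apply, Matrix.one_apply] at this
  exact this

theorem expand {ι κ : Type} [Fintype ι] [Fintype κ] [DecidableEq ι] [DecidableEq κ]
    (hc : Fintype.card κ = Fintype.card ι) (e : κ → ι → ℝ)
    (he : ∀ k l, ip (e k) (e l) = if k = l then 1 else 0) (h : ι → ℝ) (a : ι) :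
    h a = ∑ k, ip (e k) h * e k a := by
  unfold ip
  simp only [Finset.sum_mul]
  rw [Finset.sum_comm]
  have : ∀ a', ∑ k, e k a' * h a' * e k a = h a' * (if a' = a then 1 else 0) := by
    intro a'
    rw [← complete hc e he a' a, Finset.mul_sum]
    exact Finset.sum_congr rfl fun b _ => by ring
  simp only [this]
  simp

theorem parseval {ι κ : Type} [Fintype ι] [Fintype κ] [DecidableEq ι] [DecidableEq κ]
    (hc : Fintype.card κ = Fintype.card ι) (e : κ → ι → ℝ)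
    (he : ∀ k l, ip (e k) (e l) = if k = l then 1 else 0) (g h : ι → ℝ) :
    ip g h = ∑ k, ip (e k) g * ip (e k) h := by
  have h1 : ip g h = ∑ a, (∑ k, ip (e k) g * e k a) * h a := by
    unfold ip
    refine Finset.sum_congr rfl fun a _ => ?_
    conv_lhs => rw [expand hc e he g a]
    rfl
  rw [h1]
  simp only [Finset.sum_mul]
  rw [Finset.sum_comm]
  refine Finset.sum_congr rfl fun k _ => ?_
  conv_rhs => rw [ip, ip, Finset.mul_sum]
  refine Finset.sum_congr rfl fun a _ => ?_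
  unfold ip
  ring

lemma card_rep {d K : ℕ} (hd : 1 ≤ d) :
    Fintype.card (Fin K → BB d) = Fintype.card (Fin K × Fin 2 → Fin d) := by
  rw [Fintype.card_fun, Fintype.card_fun, card_BB d hd, Fintype.card_prod, Fintype.card_fin,
    Fintype.card_fin, Fintype.card_fin, ← pow_mul, mul_comm]

lemma nsq_ip {ι : Type} [Fintype ι] (x : ι → ℝ) : nsq x = ip x x := by
  unfold ip nsq
  exact Finset.sum_congr rfl fun i _ => sq _

lemma ip_comm' {ι : Type} [Fintype ι] (x y : ι → ℝ) : ip x y = ip y x := by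
  unfold ip
  exact Finset.sum_congr rfl fun i _ => mul_comm _ _

theorem ebd_b0 (d K : ℕ) : ebd (b0 : Fin K → BB d) = u0 d K := by
  funext a
  unfold ebd u0 pt b0
  refine Finset.prod_congr rfl fun p _ => ?_
  rw [Ed_unit, Matrix.smul_apply, smul_eq_mul, div_eq_inv_mul]
  rfl

theorem st_EBO : ST_EBO := by
  intro d hd K
  refine ⟨fun b c => ip_ebd hd b c, fun h => ?_, ebd_b0 d K⟩
  rw [nsq_ip, parseval (card_rep hd) ebd (fun b c => ip_ebd hd b c)]
  exact Finset.sum_congr rfl fun b _ => (sq _).symm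

end T6H72
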