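import Pool.Agent.Helper72.T6.EBO

/-!
# The replica form at the peak is diagonal in the basis (T6, `MP_2f9829_co`)
-/

set_option autoImplicit false
set_option maxHeartbeats 1000000

namespace T6H72

open Finset Pool.Agent.Helper15.T6 Pool.Agent.Helper46.T6
open Pool.Agent.Helper15.T4 (nsq)
open Equiv (Perm)

/-- sign of a permutation as a real number -/
noncomputable def sg {d : ℕ} (σ : Perm (Fin d)) : ℝ := ((((Equiv.Perm.sign σ : ℤˣ) : ℤ)) : ℝ)

lemma sg_mul {d : ℕ} (σ ρ : Perm (Fin d)) : sg (σ * ρ) = sg σ * sg ρ := by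
  unfold sg
  rw [Equiv.Perm.sign_mul]
  push_cast
  rfl

lemma sg_sq {d : ℕ} (σ : Perm (Fin d)) : sg σ * sg σ = 1 := by
  unfold sg
  rcases Int.units_eq_one_or (Equiv.Perm.sign σ) with h | h <;> rw [h] <;> simp

/-- the form of one pair of replicas -/
noncomputable def TT {d : ℕ} (X : Fin d → Md d) : ℝ :=
  ∑ σ : Perm (Fin d), ∑ τ : Perm (Fin d), sg σ * sg τ * ∏ i, X i (σ i) (τ i)

lemma TJ_prod {d K : ℕ} (X : Fin d → Fin K → Md d) :
    TJ (Fin K × Fin 2) (fun i a => ∏ p, X i p (a (p, 0)) (a (p, 1)))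
      = ∏ p, TT (fun i => X i p) := by
  unfold TJ TT
  rw [← sum_rep (fun p (σ τ : Perm (Fin d)) => sg σ * sg τ * ∏ i, X i p (σ i) (τ i))]
  refine Finset.sum_congr rfl fun π _ => ?_
  have h1 : (∏ j : Fin K × Fin 2, ((((Equiv.Perm.sign (π j) : ℤˣ) : ℤ)) : ℝ))
      = ∏ p, (sg (π (p, 0)) * sg (π (p, 1))) := prod_rep (fun j => sg (π j))
  rw [h1, Finset.prod_comm, ← Finset.prod_mul_distrib]

lemma perm_sum1 (n : ℕ) (g : Fin (n + 1) → ℝ) :
    ∑ σ : Perm (Fin (n + 1)), g (σ 0) = (n.factorial : ℝ) * ∑ i, g i := by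
  have e : ∑ σ : Perm (Fin (n + 1)), g (σ 0)
      = ∑ z : Fin (n + 1) × Perm (Fin n), g z.1 := by
    refine Fintype.sum_equiv Equiv.Perm.decomposeFin _ _ ?_
    intro σ
    obtain ⟨z, rfl⟩ := Equiv.Perm.decomposeFin.symm.surjective σ
    obtain ⟨p, e⟩ := z
    rw [Equiv.apply_symm_apply, Equiv.Perm.decomposeFin_symm_apply_zero]
  rw [e, Fintype.sum_prod_type, Finset.mul_sum]
  refine Finset.sum_congr rfl fun i _ => ?_
  simp [Fintype.card_perm]

lemma perm_sum2 (n : ℕ) (f : Fin (n + 2) → Fin (n + 2) → ℝ) :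
    ∑ σ : Perm (Fin (n + 2)), f (σ 0) (σ 1)
      = (n.factorial : ℝ) * (∑ i, ∑ j, f i j - ∑ i, f i i) := by
  have e : ∑ σ : Perm (Fin (n + 2)), f (σ 0) (σ 1)
      = ∑ z : Fin (n + 2) × Perm (Fin (n + 1)), f z.1 (Equiv.swap 0 z.1 (z.2 0).succ) := by
    refine Fintype.sum_equiv Equiv.Perm.decomposeFin _ _ ?_
    intro σ
    obtain ⟨z, rfl⟩ := Equiv.Perm.decomposeFin.symm.surjective σ
    obtain ⟨p, e⟩ := z
    rw [Equiv.apply_symm_apply, Equiv.Perm.decomposeFin_symm_apply_zero]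
    have h1 : (1 : Fin (n + 2)) = Fin.succ 0 := rfl
    rw [h1, Equiv.Perm.decomposeFin_symm_apply_succ]
  rw [e, Fintype.sum_prod_type, ← Finset.sum_sub_distrib, Finset.mul_sum]
  refine Finset.sum_congr rfl fun p _ => ?_
  simp only
  rw [perm_sum1 n (fun j => f p (Equiv.swap 0 p j.succ))]
  congr 1
  have h2 : ∑ k : Fin (n + 2), f p (Equiv.swap 0 p k) = ∑ k, f p k :=
    Equiv.sum_comp (Equiv.swap 0 p) (fun k => f p k)
  rw [Fin.sum_univ_succ, Equiv.swap_apply_left] at h2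
  linarith

lemma rho_cases {n : ℕ} (ρ : Perm (Fin (n + 2))) (h : ∀ i : Fin n, ρ i.succ.succ = i.succ.succ) :
    ρ = 1 ∨ ρ = Equiv.swap 0 1 := by
  have h0 : ρ 0 = 0 ∨ ρ 0 = 1 := by
    rcases Fin.eq_zero_or_eq_succ (ρ 0) with h' | ⟨k, hk⟩
    · exact Or.inl h'
    · rcases Fin.eq_zero_or_eq_succ k with h'' | ⟨l, hl⟩
      · right; rw [hk, h'']; rfl
      · exfalso
        rw [hl, ← h l] at hk
        have := ρ.injective hk
        exact (Fin.succ_ne_zero _ this.symm)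
  have h1 : ρ 1 = 0 ∨ ρ 1 = 1 := by
    rcases Fin.eq_zero_or_eq_succ (ρ 1) with h' | ⟨k, hk⟩
    · exact Or.inl h'
    · rcases Fin.eq_zero_or_eq_succ k with h'' | ⟨l, hl⟩
      · right; rw [hk, h'']; rfl
      · exfalso
        rw [hl, ← h l] at hk
        have := ρ.injective hk
        have h3 : (1 : Fin (n + 2)) = Fin.succ 0 := rfl
        rw [h3] at this
        exact (Fin.succ_ne_zero _ (Fin.succ_injective _ this).symm)
  have h01 : (0 : Fin (n + 2)) ≠ 1 := by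
    have h3 : (1 : Fin (n + 2)) = Fin.succ 0 := rfl
    rw [h3]; exact (Fin.succ_ne_zero _).symm
  rcases h0 with h0 | h0
  · left
    have h1' : ρ 1 = 1 := by
      rcases h1 with h1 | h1
      · exact absurd (ρ.injective (h0.trans h1.symm)) h01
      · exact h1
    ext i
    congr 1
    rcases Fin.eq_zero_or_eq_succ i with rfl | ⟨k, rfl⟩
    · exact h0
    · rcases Fin.eq_zero_or_eq_succ k with rfl | ⟨l, rfl⟩
      · exact h1'
      · exact h l
  · right
    have h1' : ρ 1 = 0 := by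
      rcases h1 with h1 | h1
      · exact h1
      · exact absurd (ρ.injective (h0.trans h1.symm)) h01
    ext i
    congr 1
    rcases Fin.eq_zero_or_eq_succ i with rfl | ⟨k, rfl⟩
    · rw [h0, Equiv.swap_apply_left]
    · rcases Fin.eq_zero_or_eq_succ k with rfl | ⟨l, rfl⟩
      · have h3 : (Fin.succ 0 : Fin (n + 2)) = 1 := rfl
        rw [h3, h1', Equiv.swap_apply_right]
      · rw [h l, Equiv.swap_apply_of_ne_of_ne (Fin.succ_ne_zero _)]
        have h3 : (1 : Fin (n + 2)) = Fin.succ 0 := rfl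
        rw [h3]
        intro h4
        exact Fin.succ_ne_zero _ (Fin.succ_injective _ h4)

/-- the polar form of two matrices -/
def tr2 {d : ℕ} (X Y : Md d) : ℝ := (∑ i, X i i) * (∑ j, Y j j) - ∑ i, ∑ j, X i j * Y j i

lemma TT_eq {n : ℕ} (X Y : Md (n + 2)) (r : ℝ) :
    TT (fun i : Fin (n + 2) => if (i : ℕ) = 0 then X else if (i : ℕ) = 1 then Y else
      r • (1 : Md (n + 2))) = r ^ n * (n.factorial : ℝ) * tr2 X Y := by
  have h01 : (0 : Fin (n + 2)) ≠ 1 := by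
    have h3 : (1 : Fin (n + 2)) = Fin.succ 0 := rfl
    rw [h3]; exact (Fin.succ_ne_zero _).symm
  unfold TT
  have e1 : ∀ σ : Perm (Fin (n + 2)), ∑ τ : Perm (Fin (n + 2)), sg σ * sg τ *
      ∏ i : Fin (n + 2), (if (i : ℕ) = 0 then X else if (i : ℕ) = 1 then Y else
      r • (1 : Md (n + 2))) (σ i) (τ i)
      = r ^ n * (X (σ 0) (σ 0) * Y (σ 1) (σ 1) - X (σ 0) (σ 1) * Y (σ 1) (σ 0)) := by
    intro σ
    have e2 : ∀ τ : Perm (Fin (n + 2)), ∏ i : Fin (n + 2), (if (i : ℕ) = 0 then X else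
        if (i : ℕ) = 1 then Y else r • (1 : Md (n + 2))) (σ i) (τ i)
        = X (σ 0) (τ 0) * (Y (σ 1) (τ 1) *
          ∏ i : Fin n, r * (if σ i.succ.succ = τ i.succ.succ then 1 else 0)) := by
      intro τ
      rw [Fin.prod_univ_succ, Fin.prod_univ_succ]
      simp [Matrix.one_apply]
    simp only [e2]
    rw [← Equiv.sum_comp (Equiv.mulLeft σ)]
    simp only [Equiv.coe_mulLeft, Equiv.Perm.coe_mul, Function.comp_apply, sg_mul,
      EmbeddingLike.apply_eq_iff_eq]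
    rw [Finset.sum_eq_add (1 : Perm (Fin (n + 2))) (Equiv.swap 0 1)]
    · have hs : sg (Equiv.swap (0 : Fin (n + 2)) 1) = -1 := by
        unfold sg; rw [Equiv.Perm.sign_swap h01]; simp
      have h1 : sg (1 : Perm (Fin (n + 2))) = 1 := by
        unfold sg; simp
      have h2 : ∀ i : Fin n, Equiv.swap (0 : Fin (n + 2)) 1 i.succ.succ = i.succ.succ := by
        intro i
        rw [Equiv.swap_apply_of_ne_of_ne (Fin.succ_ne_zero _)]
        have h3 : (1 : Fin (n + 2)) = Fin.succ 0 := rfl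
        rw [h3]
        intro h4
        exact Fin.succ_ne_zero _ (Fin.succ_injective _ h4)
      rw [hs, h1, Equiv.swap_apply_left, Equiv.swap_apply_right]
      simp only [Equiv.Perm.coe_one, id_eq, h2, if_true, mul_one, Finset.prod_const,
        Finset.card_univ, Fintype.card_fin]
      linear_combination (X (σ 0) (σ 0) * (Y (σ 1) (σ 1) * r ^ n)
        - X (σ 0) (σ 1) * (Y (σ 1) (σ 0) * r ^ n)) * sg_sq σ
    · intro h
      have := congrArg (fun e : Perm (Fin (n + 2)) => e 0) h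
      simp only [Equiv.Perm.coe_one, id_eq, Equiv.swap_apply_left] at this
      exact h01 this
    · rintro ρ _ ⟨h1, h2⟩
      have : ∃ i : Fin n, ¬ (i.succ.succ = ρ i.succ.succ) := by
        by_contra hcon
        push Not at hcon
        rcases rho_cases ρ (fun i => (hcon i).symm) with h | h
        · exact h1 h
        · exact h2 h
      obtain ⟨i, hi⟩ := this
      have hz : ∏ i : Fin n, r * (if i.succ.succ = ρ i.succ.succ then (1 : ℝ) else 0) = 0 :=
        Finset.prod_eq_zero (Finset.mem_univ i) (by rw [if_neg hi, mul_zero])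
      rw [hz]; ring
    · intro h; exact absurd (Finset.mem_univ _) h
    · intro h; exact absurd (Finset.mem_univ _) h
  rw [Finset.sum_congr rfl fun σ _ => e1 σ, ← Finset.mul_sum,
    perm_sum2 n (fun i j => X i i * Y j j - X i j * Y j i), mul_assoc]
  congr 2
  have h5 : ∑ i, (X i i * Y i i - X i i * Y i i) = 0 := by simp
  rw [h5, sub_zero]
  unfold tr2
  rw [Finset.sum_mul]
  simp only [Finset.sum_sub_distrib, Finset.mul_sum]

lemma mip_tr {d : ℕ} (X Y : Md d) : ∑ i, ∑ j, X i j * Y j i = mip X Y.transpose := by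
  unfold mip
  rfl

lemma tr_A {d : ℕ} (p : {p : Fin d × Fin d // p.1 < p.2}) :
    (Ed (Sum.inr (Sum.inl p)) : Md d).transpose = -Ed (Sum.inr (Sum.inl p)) := by
  ext i j
  rw [Matrix.transpose_apply, Matrix.neg_apply, A_entry, A_entry]
  have e1 : (if p.1.1 = j ∧ p.1.2 = i then (1 : ℝ) else 0)
      = if p.1.2 = i ∧ p.1.1 = j then 1 else 0 := if_congr and_comm rfl rfl
  have e2 : (if p.1.2 = j ∧ p.1.1 = i then (1 : ℝ) else 0)
      = if p.1.1 = i ∧ p.1.2 = j then 1 else 0 := if_congr and_comm rfl rfl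
  rw [e1, e2]; ring

lemma tr_S {d : ℕ} (p : {p : Fin d × Fin d // p.1 < p.2}) :
    (Ed (Sum.inr (Sum.inr (Sum.inl p))) : Md d).transpose = Ed (Sum.inr (Sum.inr (Sum.inl p))) := by
  ext i j
  rw [Matrix.transpose_apply, S_entry, S_entry]
  have e1 : (if p.1.1 = j ∧ p.1.2 = i then (1 : ℝ) else 0)
      = if p.1.2 = i ∧ p.1.1 = j then 1 else 0 := if_congr and_comm rfl rfl
  have e2 : (if p.1.2 = j ∧ p.1.1 = i then (1 : ℝ) else 0)
      = if p.1.1 = i ∧ p.1.2 = j then 1 else 0 := if_congr and_comm rfl rfl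
  rw [e1, e2]; ring

lemma tr_D {d : ℕ} (k : Fin (d - 1)) :
    (Ed (Sum.inr (Sum.inr (Sum.inr k))) : Md d).transpose = Ed (Sum.inr (Sum.inr (Sum.inr k))) := by
  rw [Ed_D, Matrix.transpose_smul, Matrix.diagonal_transpose]

lemma tr_U {d : ℕ} (u : Unit) : (Ed (Sum.inl u) : Md d).transpose = Ed (Sum.inl u) := by
  rw [Ed_unit, Matrix.transpose_smul, Matrix.transpose_one]

lemma trace_D {d : ℕ} (k : Fin (d - 1)) :
    ∑ i, (Ed (Sum.inr (Sum.inr (Sum.inr k))) : Md d) i i = 0 := by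
  have hk : (k : ℕ) + 1 < d := by have := k.2; omega
  have e : ∑ i : Fin d, (Ed (Sum.inr (Sum.inr (Sum.inr k))) : Md d) i i
      = (Real.sqrt (((k : ℕ) + 1) * ((k : ℕ) + 2)))⁻¹ * ∑ i : Fin d, dv (k : ℕ) i := by
    rw [Finset.mul_sum]
    refine Finset.sum_congr rfl fun i _ => ?_
    rw [D_entry, if_pos rfl]
  rw [e, sum_dv _ hk, mul_zero]

lemma trace_U {d : ℕ} (hd : 1 ≤ d) (u : Unit) : ∑ i, (Ed (Sum.inl u) : Md d) i i = Real.sqrt d := by
  have hd0 : (0 : ℝ) < d := by exact_mod_cast hd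
  simp only [U_entry, if_true, mul_one, Finset.sum_const, Finset.card_univ, Fintype.card_fin,
    nsmul_eq_mul]
  have hs : Real.sqrt d ≠ 0 := (Real.sqrt_pos.mpr hd0).ne'
  field_simp
  rw [Real.sq_sqrt hd0.le]

lemma tr2_Ed {d : ℕ} (hd : 2 ≤ d) (k l : BB d) :
    tr2 (Ed k : Md d) (Ed l) = if k = l then ((d : ℝ) - 1) * mud k else 0 := by
  have hd1 : 1 ≤ d := le_trans (by norm_num) hd
  have hd0 : (0 : ℝ) < d := by exact_mod_cast hd1
  have hd2 : (0 : ℝ) < (d : ℝ) - 1 := by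
    have : (2 : ℝ) ≤ d := by exact_mod_cast hd
    linarith
  have hneg : ∀ X Y : Md d, mip X (-Y) = -mip X Y := by
    intro X Y
    have := mip_smul_right (-1) X Y
    rw [neg_one_smul] at this
    rw [this]; ring
  unfold tr2
  rw [mip_tr]
  rcases k with u | p | p | k <;> rcases l with u' | p' | p' | l'
  · rw [tr_U, Ed_ip hd1, trace_U hd1, Real.mul_self_sqrt hd0.le]
    simp [mud]
  · rw [tr_A, hneg, Ed_ip hd1]; simp [A_diag]
  · rw [tr_S, Ed_ip hd1]; simp [S_diag]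
  · rw [tr_D, Ed_ip hd1, trace_D]; simp
  · rw [tr_U, Ed_ip hd1]; simp [A_diag]
  · rw [tr_A, hneg, Ed_ip hd1]
    simp only [A_diag, Finset.sum_const_zero, mul_zero, mud]
    split_ifs with h
    · field_simp; ring
    · ring
  · rw [tr_S, Ed_ip hd1]; simp [S_diag]
  · rw [tr_D, Ed_ip hd1, trace_D]; simp
  · rw [tr_U, Ed_ip hd1]; simp [S_diag]
  · rw [tr_A, hneg, Ed_ip hd1]; simp [A_diag]
  · rw [tr_S, Ed_ip hd1]
    simp only [S_diag, Finset.sum_const_zero, mul_zero, mud]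
    split_ifs with h
    · field_simp; ring
    · ring
  · rw [tr_D, Ed_ip hd1, trace_D]; simp
  · rw [tr_U, Ed_ip hd1, trace_D]; simp
  · rw [tr_A, hneg, Ed_ip hd1, trace_D]; simp
  · rw [tr_S, Ed_ip hd1, trace_D]; simp
  · rw [tr_D, Ed_ip hd1, trace_D]
    simp only [zero_mul, mud]
    split_ifs with h
    · field_simp; ring
    · ring

lemma qd_eq (n : ℕ) : qd (n + 2) = (Real.sqrt ((n + 2 : ℕ) : ℝ))⁻¹ ^ n * (n.factorial : ℝ) *
    (((n + 2 : ℕ) : ℝ) - 1) := by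
  have h0 : (0 : ℝ) < ((n + 2 : ℕ) : ℝ) := by positivity
  have hs : Real.sqrt ((n + 2 : ℕ) : ℝ) ≠ 0 := (Real.sqrt_pos.mpr h0).ne'
  unfold qd
  have h2 : Real.sqrt ((n + 2 : ℕ) : ℝ) ^ (n + 2)
      = Real.sqrt ((n + 2 : ℕ) : ℝ) ^ n * ((n + 2 : ℕ) : ℝ) := by
    rw [pow_add, Real.sq_sqrt h0.le]
  have h3 : ((n + 2).factorial : ℝ) = ((n + 2 : ℕ) : ℝ) * ((((n + 2 : ℕ) : ℝ) - 1) * n.factorial) := by
    rw [Nat.factorial_succ, Nat.factorial_succ]; push_cast; ring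
  have hn : Real.sqrt ((n + 2 : ℕ) : ℝ) ^ n ≠ 0 := pow_ne_zero _ hs
  rw [h2, h3, inv_pow]
  field_simp

lemma u0_eq (d K : ℕ) : u0 d K
    = fun a => ∏ p, ((Real.sqrt d)⁻¹ • (1 : Md d)) (a (p, 0)) (a (p, 1)) := by
  rw [← ebd_b0 d K]
  rfl

theorem TD2_ebd {d : ℕ} (hd : 2 ≤ d) {K : ℕ} (b c : Fin K → BB d) :
    TD2 (Fin K × Fin 2) (u0 d K) (ebd b) (ebd c)
      = if b = c then qd d ^ K * ∏ p, mud (b p) else 0 := by
  obtain ⟨n, rfl⟩ : ∃ n, d = n + 2 := ⟨d - 2, by omega⟩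
  unfold TD2
  have e1 : (fun i : Fin (n + 2) => if (i : ℕ) = 0 then ebd b else if (i : ℕ) = 1 then ebd c else
      u0 (n + 2) K) = fun i (a : Fin K × Fin 2 → Fin (n + 2)) => ∏ p,
        (fun (i : Fin (n + 2)) (p : Fin K) => if (i : ℕ) = 0 then (Ed (b p) : Md (n + 2)) else
          if (i : ℕ) = 1 then Ed (c p) else (Real.sqrt ((n + 2 : ℕ) : ℝ))⁻¹ • (1 : Md (n + 2))) i p
          (a (p, 0)) (a (p, 1)) := by
    funext i a
    simp only
    split_ifs
    · rfl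
    · rfl
    · rw [u0_eq]
  rw [e1, TJ_prod]
  simp only [TT_eq, tr2_Ed hd]
  split_ifs with h
  · subst h
    simp only [if_true]
    have hc : ∀ c : ℝ, c ^ K = ∏ _p : Fin K, c := fun c => by simp
    rw [qd_eq, hc, ← Finset.prod_mul_distrib]
    refine Finset.prod_congr rfl fun p _ => ?_
    ring
  · obtain ⟨p, hp⟩ := Function.ne_iff.mp h
    exact Finset.prod_eq_zero (Finset.mem_univ p) (by rw [if_neg hp, mul_zero])

lemma TD2_lin {d : ℕ} (hd : 2 ≤ d) {K : ℕ} {ι : Type} [Fintype ι]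
    (u g : (Fin K × Fin 2 → Fin d) → ℝ) (r : ι → ℝ) (z : ι → (Fin K × Fin 2 → Fin d) → ℝ) :
    TD2 (Fin K × Fin 2) u g (fun a => ∑ i, r i * z i a)
      = ∑ i, r i * TD2 (Fin K × Fin 2) u g (z i) := by
  obtain ⟨n, rfl⟩ : ∃ n, d = n + 2 := ⟨d - 2, by omega⟩
  unfold TD2 TJ
  simp only [Finset.mul_sum]
  rw [Finset.sum_comm]
  refine Finset.sum_congr rfl fun π _ => ?_
  simp only [Fin.prod_univ_succ]
  have h0 : ∀ x : Fin n, ((x.succ.succ : Fin (n + 2)) : ℕ) ≠ 0 := fun x => by simp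
  have h1 : ∀ x : Fin n, ((x.succ.succ : Fin (n + 2)) : ℕ) ≠ 1 := fun x => by simp
  simp only [Fin.val_zero, if_true, Fin.succ_zero_eq_one, Fin.val_one, one_ne_zero, if_false,
    Finset.mul_sum, Finset.sum_mul, h0, h1]
  refine Finset.sum_congr rfl fun i _ => ?_
  ring

lemma TD2_lin1 {d : ℕ} (hd : 2 ≤ d) {K : ℕ} {ι : Type} [Fintype ι]
    (u h : (Fin K × Fin 2 → Fin d) → ℝ) (r : ι → ℝ) (z : ι → (Fin K × Fin 2 → Fin d) → ℝ) :
    TD2 (Fin K × Fin 2) u (fun a => ∑ i, r i * z i a) h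
      = ∑ i, r i * TD2 (Fin K × Fin 2) u (z i) h := by
  obtain ⟨n, rfl⟩ : ∃ n, d = n + 2 := ⟨d - 2, by omega⟩
  unfold TD2 TJ
  simp only [Finset.mul_sum]
  rw [Finset.sum_comm]
  refine Finset.sum_congr rfl fun π _ => ?_
  simp only [Fin.prod_univ_succ]
  have h0 : ∀ x : Fin n, ((x.succ.succ : Fin (n + 2)) : ℕ) ≠ 0 := fun x => by simp
  have h1 : ∀ x : Fin n, ((x.succ.succ : Fin (n + 2)) : ℕ) ≠ 1 := fun x => by simp
  simp only [Fin.val_zero, if_true, Fin.succ_zero_eq_one, Fin.val_one, one_ne_zero, if_false,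
    Finset.mul_sum, Finset.sum_mul, h0, h1]
  refine Finset.sum_congr rfl fun i _ => ?_
  ring

theorem st_EBT : ST_EBT := by
  intro d hd K b h
  have hd1 : 1 ≤ d := le_trans (by norm_num) hd
  have hh : h = fun a => ∑ c : Fin K → BB d, ip (ebd c) h * ebd c a :=
    funext fun a => expand (card_rep hd1) ebd (fun b c => ip_ebd hd1 b c) h a
  conv_lhs => rw [hh]
  rw [TD2_lin hd]
  simp only [TD2_ebd hd]
  rw [Finset.sum_eq_single b]
  · rw [if_pos rfl]; ring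
  · intro c _ hc
    rw [if_neg (Ne.symm hc), mul_zero]
  · intro h; exact absurd (Finset.mem_univ b) h

end T6H72
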