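import Pool.Agent.Helper72.T6.EBT

/-!
# The Hessian at the peak, and the tangential part (T6, `MP_2f9829_co`)
-/

set_option autoImplicit false
set_option maxHeartbeats 1000000

namespace T6H72

open Finset Pool.Agent.Helper15.T6 Pool.Agent.Helper46.T6
open Pool.Agent.Helper15.T4 (nsq)

lemma TD2_quad {d : ℕ} (hd : 2 ≤ d) {K : ℕ} (h : (Fin K × Fin 2 → Fin d) → ℝ) :
    TD2 (Fin K × Fin 2) (u0 d K) h h
      = ∑ b : Fin K → BB d, qd d ^ K * (∏ p, mud (b p)) * ip (ebd b) h ^ 2 := by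
  have hd1 : 1 ≤ d := le_trans (by norm_num) hd
  have hh : h = fun a => ∑ c : Fin K → BB d, ip (ebd c) h * ebd c a :=
    funext fun a => expand (card_rep hd1) ebd (fun b c => ip_ebd hd1 b c) h a
  have e : TD2 (Fin K × Fin 2) (u0 d K) h h = TD2 (Fin K × Fin 2) (u0 d K)
      (fun a => ∑ c : Fin K → BB d, ip (ebd c) h * ebd c a) h := by rw [← hh]
  rw [e, TD2_lin1 hd]
  refine Finset.sum_congr rfl fun b _ => ?_
  rw [st_EBT d hd K b h]
  ring

lemma mud_U {d : ℕ} (u : Unit) : mud (Sum.inl u : BB d) = 1 := rfl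

lemma mud_A {d : ℕ} {k : BB d} (hk : IsA k) : mud k = 1 / ((d : ℝ) - 1) := by
  rcases k with u | p | s
  · exact absurd hk (by simp [IsA])
  · rfl
  · exact absurd hk (by simp [IsA])

lemma mud_S {d : ℕ} {k : BB d} (h0 : k ≠ Sum.inl ()) (hk : ¬ IsA k) :
    mud k = -(1 / ((d : ℝ) - 1)) := by
  rcases k with u | p | s
  · exact absurd rfl h0
  · exact absurd trivial hk
  · rfl

lemma c_pos {d : ℕ} (hd : 2 ≤ d) : 0 < 1 / ((d : ℝ) - 1) ∧ 1 / ((d : ℝ) - 1) ≤ 1 ∧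
    ((d : ℝ) - 1) * (1 / ((d : ℝ) - 1)) = 1 := by
  have h : (2 : ℝ) ≤ d := by exact_mod_cast hd
  have h1 : (0 : ℝ) < (d : ℝ) - 1 := by linarith
  refine ⟨by positivity, ?_, by field_simp⟩
  rw [div_le_one h1]; linarith

lemma mud_abs_ne {d : ℕ} (hd : 2 ≤ d) {k : BB d} (h0 : k ≠ Sum.inl ()) :
    |mud k| ≤ 1 / ((d : ℝ) - 1) := by
  obtain ⟨c0, -, -⟩ := c_pos hd
  by_cases hk : IsA k
  · rw [mud_A hk, abs_of_pos c0]
  · rw [mud_S h0 hk, abs_neg, abs_of_pos c0]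

lemma mud_abs {d : ℕ} (hd : 2 ≤ d) (k : BB d) : |mud k| ≤ 1 := by
  by_cases h0 : k = Sum.inl ()
  · rw [h0, mud_U]; simp
  · exact (mud_abs_ne hd h0).trans (c_pos hd).2.1

lemma prod_mud_one {d K : ℕ} {b : Fin K → BB d} {p : Fin K} (h : ∀ p', p' ≠ p → b p' = Sum.inl ()) :
    ∏ p', mud (b p') = mud (b p) := by
  rw [Finset.prod_eq_single p]
  · intro p' _ hp'; rw [h p' hp', mud_U]
  · intro h'; exact absurd (Finset.mem_univ p) h'

lemma mem_Tand {d K : ℕ} {b : Fin K → BB d} : b ∈ Tand d K ↔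
    ∃ p, IsA (b p) ∧ ∀ p', p' ≠ p → b p' = Sum.inl () := by
  simp [Tand]

lemma evd_tan_eq {d : ℕ} (hd : 2 ≤ d) {K : ℕ} {b : Fin K → BB d} (hb : b ∈ Tand d K) :
    evd b = 0 := by
  obtain ⟨p, hp, hp'⟩ := mem_Tand.mp hb
  obtain ⟨-, -, c1⟩ := c_pos hd
  have hne : b ≠ b0 := by
    intro h
    rw [h] at hp
    exact absurd hp (by simp [IsA, b0])
  unfold evd
  rw [prod_mud_one hp', mud_A hp, if_neg hne, c1]; ring

lemma evd_ntan {d : ℕ} (hd : 3 ≤ d) {K : ℕ} {b : Fin K → BB d} (hb : b ∉ Tand d K) :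
    (d : ℝ) * (d - 2) / (d - 1) ≤ evd b := by
  have hd2 : 2 ≤ d := by omega
  have hdR : (3 : ℝ) ≤ d := by exact_mod_cast hd
  have hd1 : (0 : ℝ) < (d : ℝ) - 1 := by linarith
  obtain ⟨c0, c1, c2⟩ := c_pos hd2
  have e0 : (d : ℝ) * (d - 2) / (d - 1) = d * (1 - 1 / ((d : ℝ) - 1)) := by
    field_simp; ring
  rw [e0]
  set c : ℝ := 1 / ((d : ℝ) - 1) with hc
  by_cases h0 : b = b0
  · subst h0
    have : ∏ p, mud ((b0 : Fin K → BB d) p) = 1 := Finset.prod_eq_one fun p _ => rfl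
    unfold evd
    rw [this, if_pos rfl]
    nlinarith
  · obtain ⟨p, hp⟩ := Function.ne_iff.mp h0
    have hp0 : b p ≠ Sum.inl () := hp
    unfold evd
    rw [if_neg h0]
    by_cases h1 : ∀ p', p' ≠ p → b p' = Sum.inl ()
    · have hk : ¬ IsA (b p) := fun hk => hb (mem_Tand.mpr ⟨p, hk, h1⟩)
      rw [prod_mud_one h1, mud_S hp0 hk, ← hc]
      nlinarith
    · push Not at h1
      obtain ⟨p', hne, hp'⟩ := h1
      have habs : |∏ q, mud (b q)| ≤ c * c := by
        rw [Finset.abs_prod, ← Finset.mul_prod_erase _ _ (Finset.mem_univ p),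
          ← Finset.mul_prod_erase _ _ (Finset.mem_erase.mpr ⟨hne, Finset.mem_univ p'⟩)]
        have e1 := mud_abs_ne hd2 hp0
        have e2 := mud_abs_ne hd2 hp'
        have e3 : ∏ q ∈ (Finset.univ.erase p).erase p', |mud (b q)| ≤ 1 :=
          Finset.prod_le_one (fun _ _ => abs_nonneg _) (fun _ _ => mud_abs hd2 _)
        have e4 : 0 ≤ ∏ q ∈ (Finset.univ.erase p).erase p', |mud (b q)| :=
          Finset.prod_nonneg fun _ _ => abs_nonneg _
        calc |mud (b p)| * (|mud (b p')| * ∏ q ∈ (Finset.univ.erase p).erase p', |mud (b q)|)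
            ≤ c * (c * 1) := by
              gcongr
          _ = c * c := by ring
      have h3 := (abs_le.mp habs).2
      have h4 : ((d : ℝ) - 1) * ∏ q, mud (b q) ≤ c := by
        calc ((d : ℝ) - 1) * ∏ q, mud (b q) ≤ ((d : ℝ) - 1) * (c * c) := by gcongr
          _ = c := by rw [← mul_assoc, c2, one_mul]
      have h5 : (0 : ℝ) < d := by linarith
      nlinarith

lemma Qd_eq {d : ℕ} (hd : 2 ≤ d) (K : ℕ) (h : (Fin K × Fin 2 → Fin d) → ℝ) :
    Qd d K h = ∑ b : Fin K → BB d, evd b * ip (ebd b) h ^ 2 := by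
  have hd1 : 1 ≤ d := le_trans (by norm_num) hd
  have h0 : u0 d K = ebd (b0 : Fin K → BB d) := ((st_EBO d hd1 K).2.2).symm
  have hqd : 0 < qd d := by
    have : (0 : ℝ) < d := by exact_mod_cast hd1
    unfold qd; positivity
  have hq : qd d ^ K ≠ 0 := (pow_pos hqd K).ne'
  unfold Qd
  rw [TD2_quad hd, (st_EBO d hd1 K).2.1 h]
  have e1 : (d : ℝ) ^ 2 * ip (u0 d K) h ^ 2
      = ∑ b : Fin K → BB d, (if b = b0 then (d : ℝ) ^ 2 else 0) * ip (ebd b) h ^ 2 := by
    rw [Finset.sum_eq_single (b0 : Fin K → BB d)]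
    · rw [if_pos rfl, h0]
    · intro b _ hb; rw [if_neg hb, zero_mul]
    · intro h'; exact absurd (Finset.mem_univ _) h'
  have e2 : (d : ℝ) * ((d : ℝ) - 1) *
      (∑ b : Fin K → BB d, qd d ^ K * (∏ p, mud (b p)) * ip (ebd b) h ^ 2) / qd d ^ K
      = ∑ b : Fin K → BB d, (d : ℝ) * ((d : ℝ) - 1) * (∏ p, mud (b p)) * ip (ebd b) h ^ 2 := by
    rw [Finset.mul_sum, Finset.sum_div]
    refine Finset.sum_congr rfl fun b _ => ?_
    field_simp
  rw [e1, e2, Finset.mul_sum, ← Finset.sum_sub_distrib, ← Finset.sum_add_distrib]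
  refine Finset.sum_congr rfl fun b _ => ?_
  unfold evd
  split_ifs <;> ring

theorem st_HES' : ST_HES := by
  intro d hd K h
  have hd1 : 1 ≤ d := by omega
  have hd2 : 2 ≤ d := by omega
  have hnsq := (st_EBO d hd1 K).2.1 h
  have htq0 : 0 ≤ tqd d K h := Finset.sum_nonneg fun _ _ => sq_nonneg _
  have htq1 : tqd d K h ≤ nsq h := by
    rw [hnsq]
    exact Finset.sum_le_sum_of_subset_of_nonneg (Finset.subset_univ _) fun _ _ _ => sq_nonneg _
  refine ⟨Qd_eq hd2 K h, ?_, htq1, htq0⟩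
  classical
  have e1 : nsq h - tqd d K h
      = ∑ b : Fin K → BB d, (if b ∈ Tand d K then 0 else 1) * ip (ebd b) h ^ 2 := by
    rw [hnsq]
    unfold tqd
    rw [← Finset.sum_filter_add_sum_filter_not Finset.univ (fun b => b ∈ Tand d K)]
    have : Finset.univ.filter (fun b => b ∈ Tand d K) = Tand d K := by ext; simp
    rw [this, add_sub_cancel_left, Finset.sum_filter]
    refine Finset.sum_congr rfl fun b _ => ?_
    by_cases hb : b ∈ Tand d K <;> simp [hb]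
  rw [e1, Qd_eq hd2, Finset.mul_sum]
  refine Finset.sum_le_sum fun b _ => ?_
  by_cases hb : b ∈ Tand d K
  · rw [if_pos hb, evd_tan_eq hd2 hb]
    simp
  · rw [if_neg hb]
    have := evd_ntan hd hb
    nlinarith [sq_nonneg (ip (ebd b) h)]

/-- HES in the form of the table. -/
theorem st_HES (_ : ST_EBO) (_ : ST_EBT) : ST_HES := st_HES'

end T6H72
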