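import Pool.Agent.Helper72.T6.EBT

/-!
# The tangential part (T6, `MP_2f9829_co`)
-/

set_option autoImplicit false
set_option maxHeartbeats 1000000

namespace T6H72

open Finset Pool.Agent.Helper15.T6 Pool.Agent.Helper46.T6
open Pool.Agent.Helper15.T4 (nsq)

/-- products of matrices over the pairs of replicas -/
def pr {d K : ℕ} (M : Fin K → Md d) : (Fin K × Fin 2 → Fin d) → ℝ :=
  fun a => ∏ p, M p (a (p, 0)) (a (p, 1))

lemma ip_pr {d K : ℕ} (M N : Fin K → Md d) : ip (pr M) (pr N) = ∏ p, mip (M p) (N p) := by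
  have e : ip (pr M) (pr N) = ∑ a : Fin K × Fin 2 → Fin d,
      ∏ p, (M p (a (p, 0)) (a (p, 1)) * N p (a (p, 0)) (a (p, 1))) := by
    unfold ip pr
    refine Finset.sum_congr rfl fun a _ => ?_
    rw [Finset.prod_mul_distrib]
  rw [e, sum_rep (fun p x y => M p x y * N p x y)]
  rfl

lemma ebd_pr {d K : ℕ} (b : Fin K → BB d) : ebd b = pr (fun p => Ed (b p)) := rfl

/-- one factor `β p / √d`, the others `1 / √d` -/
noncomputable def fp {d K : ℕ} (β : Fin K → Md d) (p q : Fin K) : Md d :=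
  (Real.sqrt d)⁻¹ • (if q = p then β p else 1)

lemma fp_self {d K : ℕ} (β : Fin K → Md d) (p : Fin K) : fp β p p = (Real.sqrt d)⁻¹ • β p := by
  unfold fp; rw [if_pos rfl]

lemma fp_ne {d K : ℕ} (β : Fin K → Md d) {p q : Fin K} (h : q ≠ p) :
    fp β p q = Ed (Sum.inl ()) := by
  unfold fp; rw [if_neg h, Ed_unit]

lemma Lmd_pr {d K : ℕ} (β : Fin K → Md d) : Lmd β = fun a => ∑ p, pr (fp β p) a := by
  funext a
  unfold Lmd pr
  refine Finset.sum_congr rfl fun p _ => ?_
  rw [← Finset.mul_prod_erase _ _ (Finset.mem_univ p)]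
  congr 1
  · rw [fp_self, Matrix.smul_apply, smul_eq_mul, div_eq_inv_mul]
  · refine Finset.prod_congr rfl fun q hq => ?_
    rw [fp_ne β (Finset.ne_of_mem_erase hq), Ed_unit, Matrix.smul_apply, smul_eq_mul,
      div_eq_inv_mul]

lemma ip_sum_right {ι κ : Type} [Fintype ι] [Fintype κ] (x : ι → ℝ) (y : κ → ι → ℝ) :
    ip x (fun a => ∑ k, y k a) = ∑ k, ip x (y k) := by
  unfold ip
  simp only [Finset.mul_sum]
  rw [Finset.sum_comm]

lemma ip_ebd_Lmd {d K : ℕ} (b : Fin K → BB d) (β : Fin K → Md d) :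
    ip (ebd b) (Lmd β) = ∑ p, ∏ q, mip (Ed (b q)) (fp β p q) := by
  rw [Lmd_pr, ip_sum_right]
  exact Finset.sum_congr rfl fun p _ => ip_pr _ _

lemma mip_sa {d : ℕ} {X Y : Md d} (hX : X.transpose = X) (hY : Y.transpose = -Y) :
    mip X Y = 0 := by
  have h1 : mip X Y = mip X.transpose Y.transpose := by
    unfold mip
    rw [Finset.sum_comm]
    rfl
  have h2 : mip X (-Y) = -mip X Y := by
    have := mip_smul_right (-1) X Y
    rw [neg_one_smul] at this
    rw [this]; ring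
  rw [hX, hY, h2] at h1
  linarith

lemma tr_nA {d : ℕ} {k : BB d} (hk : ¬ IsA k) : (Ed k : Md d).transpose = Ed k := by
  rcases k with u | p | p | k
  · exact tr_U u
  · exact absurd trivial hk
  · exact tr_S p
  · exact tr_D k

/-- tangent vectors have no components outside the tangential directions -/
lemma ip_ntan {d K : ℕ} (hd : 1 ≤ d) {β : Fin K → Md d} (hβ : ∀ p, (β p).transpose = -β p)
    {b : Fin K → BB d} (hb : b ∉ Tand d K) : ip (ebd b) (Lmd β) = 0 := by
  rw [ip_ebd_Lmd]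
  refine Finset.sum_eq_zero fun p _ => ?_
  by_cases h : ∀ q, q ≠ p → b q = Sum.inl ()
  · have hA : ¬ IsA (b p) := by
      intro hA
      exact hb (by simp only [Tand, Finset.mem_filter, Finset.mem_univ, true_and]; exact ⟨p, hA, h⟩)
    refine Finset.prod_eq_zero (Finset.mem_univ p) ?_
    rw [fp_self, mip_smul_right, mip_sa (tr_nA hA) (hβ p), mul_zero]
  · push Not at h
    obtain ⟨q, hq, hq'⟩ := h
    refine Finset.prod_eq_zero (Finset.mem_univ q) ?_
    rw [fp_ne β hq, Ed_ip hd, if_neg hq']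

lemma ip_tan {d K : ℕ} (hd : 1 ≤ d) (β : Fin K → Md d) {b : Fin K → BB d} {p : Fin K}
    (hp : IsA (b p)) (hb : ∀ q, q ≠ p → b q = Sum.inl ()) :
    ip (ebd b) (Lmd β) = (Real.sqrt d)⁻¹ * mip (Ed (b p)) (β p) := by
  have hp0 : b p ≠ Sum.inl () := by
    intro h; rw [h] at hp; exact hp
  rw [ip_ebd_Lmd, Finset.sum_eq_single p]
  · rw [Finset.prod_eq_single p]
    · rw [fp_self, mip_smul_right]
    · intro q _ hq
      rw [fp_ne β hq, Ed_ip hd, if_pos (hb q hq)]
    · intro h; exact absurd (Finset.mem_univ _) h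
  · intro p' _ hp'
    refine Finset.prod_eq_zero (Finset.mem_univ p) ?_
    rw [fp_ne β (Ne.symm hp'), Ed_ip hd, if_neg hp0]
  · intro h; exact absurd (Finset.mem_univ _) h

lemma mip_self {d : ℕ} (X : Md d) : mip X X = nsqm X := by
  unfold mip nsqm
  exact Finset.sum_congr rfl fun i _ => Finset.sum_congr rfl fun j _ => (sq _).symm

lemma ip_sum_left {ι κ : Type} [Fintype ι] [Fintype κ] (x : ι → ℝ) (y : κ → ι → ℝ) :
    ip (fun a => ∑ k, y k a) x = ∑ k, ip (y k) x := by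
  rw [ip_comm', ip_sum_right]
  exact Finset.sum_congr rfl fun k _ => ip_comm' _ _

lemma nsq_Lmd {d K : ℕ} (hd : 1 ≤ d) {β : Fin K → Md d} (hβ : ∀ p, (β p).transpose = -β p) :
    nsq (Lmd β) = (∑ p, nsqm (β p)) / d := by
  have hd0 : (0 : ℝ) < d := by exact_mod_cast hd
  have hi : (Real.sqrt d)⁻¹ * (Real.sqrt d)⁻¹ = (d : ℝ)⁻¹ := by
    rw [← mul_inv, Real.mul_self_sqrt hd0.le]
  rw [nsq_ip, Lmd_pr, ip_sum_left, Finset.sum_div]
  refine Finset.sum_congr rfl fun p _ => ?_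
  rw [ip_sum_right, Finset.sum_eq_single p]
  · rw [ip_pr, Finset.prod_eq_single p]
    · rw [fp_self, mip_smul_left, mip_smul_right, mip_self, ← mul_assoc, hi, div_eq_inv_mul]
    · intro q _ hq
      rw [fp_ne β hq, Ed_ip hd, if_pos rfl]
    · intro h; exact absurd (Finset.mem_univ _) h
  · intro p' _ hp'
    rw [ip_pr]
    refine Finset.prod_eq_zero (Finset.mem_univ p) ?_
    rw [fp_self, fp_ne β (Ne.symm hp'), mip_smul_left, mip_comm, mip_sa (tr_U ()) (hβ p), mul_zero]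
  · intro h; exact absurd (Finset.mem_univ _) h

lemma tqd_Lmd {d K : ℕ} (hd : 1 ≤ d) {β : Fin K → Md d} (hβ : ∀ p, (β p).transpose = -β p) :
    tqd d K (Lmd β) = nsq (Lmd β) := by
  rw [(st_EBO d hd K).2.1]
  unfold tqd
  refine Finset.sum_subset (Finset.subset_univ _) fun b _ hb => ?_
  rw [ip_ntan hd hβ hb]; ring

lemma ip_Lmd_of_tqd {d K : ℕ} (hd : 1 ≤ d) {β : Fin K → Md d} (hβ : ∀ p, (β p).transpose = -β p)
    (g : (Fin K × Fin 2 → Fin d) → ℝ) :
    ip g (Lmd β) = ∑ b ∈ Tand d K, ip (ebd b) g * ip (ebd b) (Lmd β) := by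
  rw [parseval (card_rep hd) ebd (fun b c => ip_ebd hd b c)]
  symm
  refine Finset.sum_subset (Finset.subset_univ _) fun b _ hb => ?_
  rw [ip_ntan hd hβ hb, mul_zero]

lemma mip_sum_right {d : ℕ} {κ : Type} [Fintype κ] (X : Md d) (r : κ → ℝ) (Y : κ → Md d) :
    mip X (∑ k, r k • Y k) = ∑ k, r k * mip X (Y k) := by
  unfold mip
  simp only [Matrix.sum_apply, Matrix.smul_apply, smul_eq_mul, Finset.mul_sum]
  rw [Finset.sum_congr rfl fun i _ => Finset.sum_comm, Finset.sum_comm]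
  refine Finset.sum_congr rfl fun k _ => Finset.sum_congr rfl fun i _ =>
    Finset.sum_congr rfl fun j _ => by ring

/-- the matrices of the tangential part -/
noncomputable def bt {d K : ℕ} (h : (Fin K × Fin 2 → Fin d) → ℝ) (p : Fin K) : Md d :=
  Real.sqrt d • ∑ k : {p : Fin d × Fin d // p.1 < p.2},
    ip (ebd (Function.update (b0 : Fin K → BB d) p (Sum.inr (Sum.inl k)))) h •
      (Ed (Sum.inr (Sum.inl k)) : Md d)

lemma bt_anti {d K : ℕ} (h : (Fin K × Fin 2 → Fin d) → ℝ) (p : Fin K) :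
    (bt h p).transpose = -bt h p := by
  unfold bt
  rw [Matrix.transpose_smul, Matrix.transpose_sum, ← smul_neg, ← Finset.sum_neg_distrib]
  congr 1
  refine Finset.sum_congr rfl fun k _ => ?_
  rw [Matrix.transpose_smul, tr_A, smul_neg]

lemma ip_bt {d K : ℕ} (hd : 1 ≤ d) (h : (Fin K × Fin 2 → Fin d) → ℝ) {b : Fin K → BB d}
    (hb : b ∈ Tand d K) : ip (ebd b) (Lmd (bt h)) = ip (ebd b) h := by
  have hd0 : (0 : ℝ) < d := by exact_mod_cast hd
  have hs : Real.sqrt d ≠ 0 := (Real.sqrt_pos.mpr hd0).ne'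
  simp only [Tand, Finset.mem_filter, Finset.mem_univ, true_and] at hb
  obtain ⟨p, hp, hq⟩ := hb
  rw [ip_tan hd _ hp hq]
  obtain ⟨k, hk⟩ : ∃ k, b p = Sum.inr (Sum.inl k) := by
    rcases hbp : b p with u | k | s
    · rw [hbp] at hp; exact absurd hp (by simp [IsA])
    · exact ⟨k, rfl⟩
    · rw [hbp] at hp; exact absurd hp (by simp [IsA])
  have hb' : b = Function.update (b0 : Fin K → BB d) p (Sum.inr (Sum.inl k)) := by
    funext q
    by_cases hqp : q = p
    · subst hqp; rw [hk, Function.update_self]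
    · rw [Function.update_of_ne hqp, hq q hqp]; rfl
  rw [hk]
  unfold bt
  rw [mip_smul_right, mip_sum_right, Finset.sum_eq_single k]
  · rw [Ed_ip hd, if_pos rfl, ← hb', mul_one, ← mul_assoc, inv_mul_cancel₀ hs, one_mul]
  · intro l _ hl
    rw [Ed_ip hd, if_neg (fun h' => hl (Sum.inl.inj (Sum.inr.inj h')).symm), mul_zero]
  · intro h; exact absurd (Finset.mem_univ _) h

lemma ip_sub_right {ι : Type} [Fintype ι] (x y z : ι → ℝ) :
    ip x (fun a => y a - z a) = ip x y - ip x z := by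
  unfold ip
  rw [← Finset.sum_sub_distrib]
  exact Finset.sum_congr rfl fun i _ => by ring

theorem st_TANP' : ST_TANP := by
  intro d hd K
  refine ⟨fun h => ?_, fun β hβ => ⟨nsq_Lmd hd hβ, tqd_Lmd hd hβ⟩, fun g hg β hβ => ?_⟩
  · have hβ := bt_anti h
    have h1 : tqd d K (Lmd (bt h)) = tqd d K h := by
      unfold tqd
      exact Finset.sum_congr rfl fun b hb => by rw [ip_bt hd h hb]
    have h2 : nsq (Lmd (bt h)) = tqd d K h := by rw [← tqd_Lmd hd hβ, h1]
    have h3 : ip h (Lmd (bt h)) = tqd d K h := by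
      rw [ip_Lmd_of_tqd hd hβ]
      unfold tqd
      exact Finset.sum_congr rfl fun b hb => by rw [ip_bt hd h hb, sq]
    refine ⟨bt h, hβ, ?_, ?_, ?_⟩
    · rw [← nsq_Lmd hd hβ, h2]
    · have e1 : nsq (fun a => h a - Lmd (bt h) a)
          = nsq h - 2 * ip h (Lmd (bt h)) + nsq (Lmd (bt h)) := by
        unfold nsq ip
        rw [Finset.mul_sum, ← Finset.sum_sub_distrib, ← Finset.sum_add_distrib]
        exact Finset.sum_congr rfl fun a _ => by ring
      rw [e1, h2, h3]; ring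
    · unfold tqd
      refine Finset.sum_eq_zero fun b hb => ?_
      rw [ip_sub_right, ip_bt hd h hb]; ring
  · rw [ip_Lmd_of_tqd hd hβ]
    refine Finset.sum_eq_zero fun b hb => ?_
    have h0 : ∀ b ∈ Tand d K, ip (ebd b) g ^ 2 = 0 :=
      (Finset.sum_eq_zero_iff_of_nonneg (fun b _ => sq_nonneg _)).mp hg
    have := h0 b hb
    rw [pow_eq_zero_iff (by norm_num)] at this
    rw [this, zero_mul]

/-- TANP in the form of the table. -/
theorem st_TANP (_ : ST_EBO) : ST_TANP := st_TANP'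

end T6H72
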